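import Pool.Agent.E8helper55.DB.Stm

set_option autoImplicit false

namespace Pool.Agent.E8helper59.DB

open Finset Pool.Agent.E8helper55.DB

theorem num_holds : NUM := by
  intro n a S δ hδ0 hδ1 hS H
  have hp0 : (0 : ℝ) ≤ 1 / 2 - δ := by linarith
  have hn0 : (0 : ℝ) ≤ n := Nat.cast_nonneg n
  have hpn : (0 : ℝ) ≤ (1 / 2 - δ) * n := mul_nonneg hp0 hn0
  obtain ⟨k, hk⟩ : ∃ k : ℕ, k = ⌊(1 / 2 - δ) * (n : ℝ)⌋₊ := ⟨_, rfl⟩
  have hk1 : (k : ℝ) ≤ (1 / 2 - δ) * n := by rw [hk]; exact Nat.floor_le hpn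
  have hk2 : (1 / 2 - δ) * n - 1 ≤ (k : ℝ) := by
    have := Nat.lt_floor_add_one ((1 / 2 - δ) * (n : ℝ))
    rw [← hk] at this
    linarith
  obtain ⟨m, hm⟩ : ∃ m : ℕ, m = ⌊S⌋₊ := ⟨_, rfl⟩
  have hSm : S < (m : ℝ) + 1 := by rw [hm]; exact Nat.lt_floor_add_one S
  have hms : (m : ℝ) ≤ ((m - 2 : ℕ) : ℝ) + 2 := by
    have : m ≤ (m - 2) + 2 := by omega
    exact_mod_cast this
  have h1 := H k (m - 2) (by linarith)
  have h1' : (a : ℝ) * 2 ^ k ≤ 2 ^ k * (2 ^ n * ((∑ i ∈ range (k + 1), n.choose i : ℕ) : ℝ)) +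
      4 ^ n * ((∑ i ∈ range (m - 2), k.choose i : ℕ) : ℝ) := by exact_mod_cast h1
  have e1 : ((∑ i ∈ range (k + 1), n.choose i : ℕ) : ℝ) ≤ 2 ^ n * Real.exp (-(2 * δ ^ 2 * n)) :=
    Pool.Agent.R288.PC.tail n k δ hδ0 hk1
  have hmono : Real.exp (-(2 * δ ^ 2 * n)) ≤ Real.exp (-((1 - 2 * δ) * δ ^ 2 * n)) := by
    apply Real.exp_le_exp.2
    have : (0 : ℝ) ≤ δ ^ 2 * n := by positivity
    nlinarith [mul_nonneg hδ0 this]
  have e2 : ((∑ i ∈ range (m - 2), k.choose i : ℕ) : ℝ) ≤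
      2 ^ k * (Real.exp (1 / 2) * Real.exp (-((1 - 2 * δ) * δ ^ 2 * n))) := by
    rcases Nat.eq_zero_or_pos (m - 2) with h0 | h0
    · rw [h0, range_zero, sum_empty, Nat.cast_zero]
      positivity
    · have hm3 : 3 ≤ m := by omega
      have hSpos : 0 ≤ S := by
        by_contra hneg
        have : ⌊S⌋₊ = 0 := Nat.floor_of_nonpos (by linarith)
        omega
      have hmS : (m : ℝ) ≤ S := by rw [hm]; exact Nat.floor_le hSpos
      have hD : ((m - 3 : ℕ) : ℝ) ≤ (1 / 2 - δ) * k := by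
        rw [Nat.cast_sub hm3]
        push_cast
        nlinarith [mul_le_mul_of_nonneg_left hk2 hp0]
      have h2 := Pool.Agent.R288.PC.tail k (m - 3) δ hδ0 hD
      have h3 : Pool.Agent.R288.PC.vol k (m - 3) = ∑ i ∈ range (m - 2), k.choose i := by
        unfold Pool.Agent.R288.PC.vol
        rw [show m - 3 + 1 = m - 2 by omega]
      rw [h3] at h2
      refine h2.trans ?_
      apply mul_le_mul_of_nonneg_left _ (by positivity)
      rw [← Real.exp_add]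
      apply Real.exp_le_exp.2
      have h4 : 2 * δ ^ 2 * ((1 / 2 - δ) * n - 1) ≤ 2 * δ ^ 2 * k :=
        mul_le_mul_of_nonneg_left hk2 (by positivity)
      nlinarith
  have hE : 0 < Real.exp (-((1 - 2 * δ) * δ ^ 2 * n)) := Real.exp_pos _
  have hexp : Real.exp (1 / 2) ≤ 2 := by
    have h5 : Real.exp (1 / 2) * Real.exp (1 / 2) = Real.exp 1 := by
      rw [← Real.exp_add]; norm_num
    have h6 := Real.exp_one_lt_d9
    nlinarith [Real.exp_pos (1 / 2)]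
  have h2k : (0 : ℝ) < 2 ^ k := by positivity
  have h4n : (0 : ℝ) < 4 ^ n := by positivity
  have h4 : (4 : ℝ) ^ n = 2 ^ n * 2 ^ n := by rw [← mul_pow]; norm_num
  have h7 : (a : ℝ) * 2 ^ k ≤ (3 * 4 ^ n * Real.exp (-((1 - 2 * δ) * δ ^ 2 * n))) * 2 ^ k := by
    refine h1'.trans ?_
    have a1 : 2 ^ k * (2 ^ n * ((∑ i ∈ range (k + 1), n.choose i : ℕ) : ℝ)) ≤
        2 ^ k * (2 ^ n * (2 ^ n * Real.exp (-((1 - 2 * δ) * δ ^ 2 * n)))) := by
      apply mul_le_mul_of_nonneg_left _ h2k.le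
      apply mul_le_mul_of_nonneg_left _ (by positivity)
      exact e1.trans (mul_le_mul_of_nonneg_left hmono (by positivity))
    have a2 : 4 ^ n * ((∑ i ∈ range (m - 2), k.choose i : ℕ) : ℝ) ≤
        4 ^ n * (2 ^ k * (2 * Real.exp (-((1 - 2 * δ) * δ ^ 2 * n)))) := by
      apply mul_le_mul_of_nonneg_left _ h4n.le
      refine e2.trans ?_
      apply mul_le_mul_of_nonneg_left _ h2k.le
      exact mul_le_mul_of_nonneg_right hexp hE.le
    refine (add_le_add a1 a2).trans (le_of_eq ?_)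
    rw [h4]
    ring
  exact le_of_mul_le_mul_right h7 h2k

end Pool.Agent.E8helper59.DB
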